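import Mathlib

/-!
# Counting connected vertex sets in a finite graph

Helper file for `MP_b90d6a_co`.
-/

namespace Pool.Agent.J4H95.TS

open SimpleGraph Finset

section Count

variable {V : Type*} [Fintype V] [DecidableEq V] (G : SimpleGraph V) [DecidableRel G.Adj]

omit [Fintype V] [DecidableRel G.Adj] in
/-- In a connected induced subgraph every proper nonempty part sends an edge out. -/
lemma exists_crossing {U A : Finset V} (hU : (G.induce (U : Set V)).Connected)
    (hA : A ⊆ U) (hne : A.Nonempty) (hlt : A ≠ U) :
    ∃ a ∈ A, ∃ x ∈ U, x ∉ A ∧ G.Adj a x := by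
  obtain ⟨a0, ha0⟩ := hne
  obtain ⟨x0, hx0, hx0A⟩ : ∃ x ∈ U, x ∉ A := by
    by_contra h
    push Not at h
    exact hlt (Finset.Subset.antisymm hA h)
  obtain ⟨p⟩ := hU.preconnected ⟨a0, hA ha0⟩ ⟨x0, hx0⟩
  obtain ⟨d, -, hd1, hd2⟩ := p.exists_boundary_dart {y | (y : V) ∈ A} ha0 hx0A
  exact ⟨d.fst.1, hd1, d.snd.1, d.snd.2, hd2, by simpa using d.adj⟩

open Classical in
/-- The family of connected `k`-sets containing `A` all of whose vertices have degree `≤ d`. -/
noncomputable def ext (k d : ℕ) (A : Finset V) : Finset (Finset V) :=
  univ.filter (fun U : Finset V => A ⊆ U ∧ U.card = k ∧ (G.induce (U : Set V)).Connected ∧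
    ∀ x ∈ U, G.degree x ≤ d)

lemma card_ext_le (k d : ℕ) : ∀ (j : ℕ) (A : Finset V), A.Nonempty → A.card + j = k →
    (ext G k d A).card ≤ (k * d) ^ j := by
  intro j
  induction j with
  | zero =>
    intro A hA hk
    have : ext G k d A ⊆ {A} := by
      intro U hU
      simp only [ext, mem_filter, mem_univ, true_and] at hU
      rw [mem_singleton]
      refine (Finset.eq_of_subset_of_card_le hU.1 ?_).symm
      omega
    calc (ext G k d A).card ≤ ({A} : Finset (Finset V)).card := Finset.card_le_card this
      _ = 1 := Finset.card_singleton _
      _ = (k * d) ^ 0 := by simp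
  | succ j ih =>
    intro A hA hk
    by_cases hdeg : ∃ a ∈ A, d < G.degree a
    · obtain ⟨a, haA, ha⟩ := hdeg
      have : ext G k d A = ∅ := by
        rw [Finset.eq_empty_iff_forall_notMem]
        intro U hU
        simp only [ext, mem_filter, mem_univ, true_and] at hU
        exact absurd (hU.2.2.2 a (hU.1 haA)) (by omega)
      rw [this]
      simp
    · push Not at hdeg
      have hsub : ext G k d A ⊆
          (A.biUnion (fun a => G.neighborFinset a) \ A).biUnion
            (fun x => ext G k d (insert x A)) := by
        intro U hU
        simp only [ext, mem_filter, mem_univ, true_and] at hU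
        obtain ⟨hAU, hcard, hconn, hall⟩ := hU
        obtain ⟨a, ha, x, hx, hxA, hadj⟩ := exists_crossing G hconn hAU hA
          (by rintro rfl; omega)
        rw [mem_biUnion]
        refine ⟨x, ?_, ?_⟩
        · rw [mem_sdiff, mem_biUnion]
          exact ⟨⟨a, ha, by simpa using hadj⟩, hxA⟩
        · simp only [ext, mem_filter, mem_univ, true_and]
          refine ⟨?_, hcard, hconn, hall⟩
          intro y hy
          rcases mem_insert.1 hy with rfl | hy
          · exact hx
          · exact hAU hy
      have h1 : (ext G k d A).card ≤
          (A.biUnion (fun a => G.neighborFinset a) \ A).card * (k * d) ^ j := by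
        refine (Finset.card_le_card hsub).trans ?_
        refine Finset.card_biUnion_le_card_mul _ _ _ ?_
        intro x hx
        rw [mem_sdiff] at hx
        refine ih (insert x A) (Finset.insert_nonempty _ _) ?_
        rw [Finset.card_insert_of_notMem hx.2]
        omega
      have h2 : (A.biUnion (fun a => G.neighborFinset a) \ A).card ≤ k * d := by
        calc (A.biUnion (fun a => G.neighborFinset a) \ A).card
            ≤ (A.biUnion (fun a => G.neighborFinset a)).card :=
              Finset.card_le_card Finset.sdiff_subset
          _ ≤ A.card * d := by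
              refine Finset.card_biUnion_le_card_mul _ _ _ ?_
              intro a ha
              rw [G.card_neighborFinset_eq_degree]
              exact hdeg a ha
          _ ≤ k * d := Nat.mul_le_mul_right _ (by omega)
      calc (ext G k d A).card ≤ _ := h1
        _ ≤ (k * d) * (k * d) ^ j := Nat.mul_le_mul_right _ h2
        _ = (k * d) ^ (j + 1) := by rw [pow_succ]; ring

end Count

end Pool.Agent.J4H95.TS
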