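import Mathlib

/-!
# Degree sums over the edges of a tree

Helper file for `MP_b90d6a_co`.
-/

namespace Pool.Agent.J4H95.TS

open SimpleGraph Finset

section Parent

variable {V : Type*} {G : SimpleGraph V}

/-- In a tree every vertex has at most one neighbour closer to the root. -/
lemma parent_unique (hG : G.IsTree) (r : V) {a b c : V} (hab : G.Adj a b) (hac : G.Adj a c)
    (hb : G.dist r a = G.dist r b + 1) (hc : G.dist r a = G.dist r c + 1) : b = c := by
  obtain ⟨p, hp⟩ := hG.connected.exists_walk_length_eq_dist r b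
  obtain ⟨q, hq⟩ := hG.connected.exists_walk_length_eq_dist r c
  have hp' : (p.concat hab.symm).IsPath :=
    Walk.isPath_of_length_eq_dist _ (by rw [Walk.length_concat, hp, hb])
  have hq' : (q.concat hac.symm).IsPath :=
    Walk.isPath_of_length_eq_dist _ (by rw [Walk.length_concat, hq, hc])
  have h := (hG.existsUnique_path r a).unique hp' hq'
  have h2 := congrArg Walk.penultimate h
  simpa using h2

end Parent

section Sum

variable {V : Type*} [Fintype V] [DecidableEq V] (G : SimpleGraph V) [DecidableRel G.Adj]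

/-- Summing a vertex weight over the (at most one) parent edge of each vertex. -/
lemma sum_parent_le (hG : G.IsTree) (r : V) (f : V → ℕ) :
    ∑ a : V, ∑ _b ∈ (G.neighborFinset a).filter (fun b => G.dist r a = G.dist r b + 1), f a
      ≤ ∑ a : V, f a := by
  refine Finset.sum_le_sum fun a _ => ?_
  rw [Finset.sum_const, smul_eq_mul]
  have : ((G.neighborFinset a).filter (fun b => G.dist r a = G.dist r b + 1)).card ≤ 1 := by
    rw [Finset.card_le_one]
    intro b hb c hc
    simp only [mem_filter, mem_neighborFinset] at hb hc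
    exact parent_unique hG r hb.1 hc.1 hb.2 hc.2
  calc _ ≤ 1 * f a := Nat.mul_le_mul_right _ this
    _ = f a := one_mul _

/-- The weighted edge sum controlling the non-star subtrees. -/
def edgeSum (e : ℕ) : ℕ :=
  ∑ v : V, ∑ u ∈ (G.neighborFinset v).filter (fun u => G.degree u ≤ G.degree v),
    G.degree u * G.degree v ^ e

lemma edge_term (K x y e : ℕ) : K * (x * y ^ (e + 1)) ≤ y ^ (e + 2) + K ^ (e + 2) * x ^ (e + 2) := by
  rcases le_total (K * x) y with h | h
  · calc K * (x * y ^ (e + 1)) = (K * x) * y ^ (e + 1) := by ring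
      _ ≤ y * y ^ (e + 1) := Nat.mul_le_mul_right _ h
      _ = y ^ (e + 2) := by ring
      _ ≤ _ := Nat.le_add_right _ _
  · calc K * (x * y ^ (e + 1)) = (K * x) * y ^ (e + 1) := by ring
      _ ≤ (K * x) * (K * x) ^ (e + 1) := Nat.mul_le_mul_left _ (Nat.pow_le_pow_left h _)
      _ = K ^ (e + 2) * x ^ (e + 2) := by ring
      _ ≤ _ := Nat.le_add_left _ _

/-- `K * Σ d_u d_v^{e+1} ≤ M_{e+3} + 2 K^{e+2} M_{e+2}` where the sum is over adjacent pairs with
`d_u ≤ d_v` and `M_j = Σ d^j`. -/
lemma edgeSum_le (hG : G.IsTree) (K e : ℕ) (hK : 1 ≤ K) :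
    K * edgeSum G (e + 1) ≤ ∑ v : V, G.degree v ^ (e + 3)
      + 2 * K ^ (e + 2) * ∑ v : V, G.degree v ^ (e + 2) := by
  obtain ⟨r⟩ := hG.connected.nonempty
  -- split according to whether `u` is the parent of `v` or a child of `v`
  have key : ∀ v : V, ∑ u ∈ (G.neighborFinset v).filter (fun u => G.degree u ≤ G.degree v),
      K * (G.degree u * G.degree v ^ (e + 1)) ≤
      ∑ _u ∈ (G.neighborFinset v).filter (fun u => G.dist r v = G.dist r u + 1),
        K ^ (e + 2) * G.degree v ^ (e + 2)
      + (∑ _u ∈ (G.neighborFinset v), G.degree v ^ (e + 2)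
      + ∑ u ∈ (G.neighborFinset v).filter (fun u => G.dist r u = G.dist r v + 1),
        K ^ (e + 2) * G.degree u ^ (e + 2)) := by
    intro v
    have h1 : ∀ u ∈ (G.neighborFinset v).filter (fun u => G.degree u ≤ G.degree v),
        K * (G.degree u * G.degree v ^ (e + 1)) ≤
          (if G.dist r v = G.dist r u + 1 then K ^ (e + 2) * G.degree v ^ (e + 2) else 0)
          + (G.degree v ^ (e + 2)
          + (if G.dist r u = G.dist r v + 1 then K ^ (e + 2) * G.degree u ^ (e + 2) else 0)) := by
      intro u hu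
      simp only [mem_filter, mem_neighborFinset] at hu
      rcases hG.dist_eq_dist_add_one_of_adj r hu.1 with h | h
      · have h' : ¬ (G.dist r u = G.dist r v + 1) := by omega
        simp only [h, h', if_true, if_false, add_zero]
        rw [if_neg (by omega), add_zero]
        calc K * (G.degree u * G.degree v ^ (e + 1))
            ≤ K * (G.degree v * G.degree v ^ (e + 1)) := by
              exact Nat.mul_le_mul_left _ (Nat.mul_le_mul_right _ hu.2)
          _ = K * G.degree v ^ (e + 2) := by ring
          _ ≤ K ^ (e + 2) * G.degree v ^ (e + 2) := by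
              refine Nat.mul_le_mul_right _ ?_
              calc K = K ^ 1 := (pow_one K).symm
                _ ≤ K ^ (e + 2) := Nat.pow_le_pow_right hK (by omega)
          _ ≤ _ := Nat.le_add_right _ _
      · rw [if_pos h, if_neg (by omega), zero_add]
        exact edge_term K _ _ e
    refine (Finset.sum_le_sum h1).trans ?_
    rw [Finset.sum_add_distrib, Finset.sum_add_distrib]
    refine Nat.add_le_add ?_ (Nat.add_le_add ?_ ?_)
    · rw [← Finset.sum_filter]
      refine Finset.sum_le_sum_of_subset ?_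
      intro x hx
      simp only [mem_filter] at hx ⊢
      exact ⟨hx.1.1, hx.2⟩
    · exact Finset.sum_le_sum_of_subset (Finset.filter_subset _ _)
    · rw [← Finset.sum_filter]
      refine Finset.sum_le_sum_of_subset ?_
      intro x hx
      simp only [mem_filter] at hx ⊢
      exact ⟨hx.1.1, hx.2⟩
  have hA : ∑ v : V, ∑ _u ∈ (G.neighborFinset v).filter (fun u => G.dist r v = G.dist r u + 1),
        K ^ (e + 2) * G.degree v ^ (e + 2) ≤ K ^ (e + 2) * ∑ v : V, G.degree v ^ (e + 2) := by
    rw [Finset.mul_sum]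
    exact sum_parent_le G hG r (fun v => K ^ (e + 2) * G.degree v ^ (e + 2))
  have hC : ∑ v : V, ∑ u ∈ (G.neighborFinset v).filter (fun u => G.dist r u = G.dist r v + 1),
        K ^ (e + 2) * G.degree u ^ (e + 2) ≤ K ^ (e + 2) * ∑ v : V, G.degree v ^ (e + 2) := by
    rw [Finset.mul_sum]
    refine le_trans (le_of_eq ?_)
      (sum_parent_le G hG r (fun v => K ^ (e + 2) * G.degree v ^ (e + 2)))
    refine Finset.sum_comm' ?_
    intro x y
    simp only [mem_univ, true_and, mem_filter, mem_neighborFinset, and_true]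
    constructor
    · rintro ⟨h1, h2⟩
      exact ⟨h1.symm, h2⟩
    · rintro ⟨h1, h2⟩
      exact ⟨h1.symm, h2⟩
  have hB : ∑ v : V, ∑ _u ∈ (G.neighborFinset v), G.degree v ^ (e + 2)
      = ∑ v : V, G.degree v ^ (e + 3) := by
    refine Finset.sum_congr rfl fun v _ => ?_
    rw [Finset.sum_const, G.card_neighborFinset_eq_degree, smul_eq_mul]
    ring
  calc K * edgeSum G (e + 1)
      = ∑ v : V, ∑ u ∈ (G.neighborFinset v).filter (fun u => G.degree u ≤ G.degree v),
      K * (G.degree u * G.degree v ^ (e + 1)) := by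
        rw [edgeSum, Finset.mul_sum]
        refine Finset.sum_congr rfl fun v _ => ?_
        rw [Finset.mul_sum]
    _ ≤ _ := Finset.sum_le_sum fun v _ => key v
    _ = _ := by rw [Finset.sum_add_distrib, Finset.sum_add_distrib]
    _ ≤ K ^ (e + 2) * ∑ v : V, G.degree v ^ (e + 2) + (∑ v : V, G.degree v ^ (e + 3)
        + K ^ (e + 2) * ∑ v : V, G.degree v ^ (e + 2)) :=
        Nat.add_le_add hA (Nat.add_le_add hB.le hC)
    _ = _ := by ring

/-- Trading one power of the degree for a constant. -/
lemma power_trade (L e : ℕ) :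
    L * ∑ v : V, G.degree v ^ (e + 2) ≤ ∑ v : V, G.degree v ^ (e + 3)
      + L ^ (e + 3) * Fintype.card V := by
  rw [Finset.mul_sum]
  have : ∀ v ∈ (univ : Finset V), L * G.degree v ^ (e + 2) ≤ G.degree v ^ (e + 3) + L ^ (e + 3) := by
    intro v _
    rcases le_total L (G.degree v) with h | h
    · calc L * G.degree v ^ (e + 2) ≤ G.degree v * G.degree v ^ (e + 2) :=
            Nat.mul_le_mul_right _ h
        _ = G.degree v ^ (e + 3) := by ring
        _ ≤ _ := Nat.le_add_right _ _
    · calc L * G.degree v ^ (e + 2) ≤ L * L ^ (e + 2) :=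
            Nat.mul_le_mul_left _ (Nat.pow_le_pow_left h _)
        _ = L ^ (e + 3) := by ring
        _ ≤ _ := Nat.le_add_left _ _
  refine (Finset.sum_le_sum this).trans ?_
  rw [Finset.sum_add_distrib, Finset.sum_const, Finset.card_univ, smul_eq_mul]
  apply le_of_eq
  ring

end Sum

section Levels

variable {V : Type*} [Fintype V] [DecidableEq V] (G : SimpleGraph V) [DecidableRel G.Adj]

/-- The number of vertices at distance `i` from the root. -/
noncomputable def level (r : V) (i : ℕ) : Finset V := univ.filter (fun v => G.dist r v = i)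

lemma level_succ_sq_le (hG : G.Connected) (r : V) (i : ℕ) :
    (level G r (i + 1)).card ^ 2 ≤ (∑ v : V, G.degree v ^ 2) * (level G r i).card := by
  have hsub : level G r (i + 1) ⊆ (level G r i).biUnion (fun v => G.neighborFinset v) := by
    intro x hx
    simp only [level, mem_filter, mem_univ, true_and] at hx
    obtain ⟨p, hp⟩ := hG.exists_walk_length_eq_dist r x
    have hnn : ¬ p.Nil := by
      intro h
      have := Walk.nil_iff_length_eq.1 h
      omega
    rw [mem_biUnion]
    refine ⟨p.penultimate, ?_, ?_⟩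
    · simp only [level, mem_filter, mem_univ, true_and]
      have h1 : G.dist r p.penultimate ≤ i := by
        have := dist_le p.dropLast
        rw [Walk.length_dropLast] at this
        omega
      have h2 : G.dist r x ≤ G.dist r p.penultimate + 1 := by
        have h3 := hG.dist_triangle (u := r) (v := p.penultimate) (w := x)
        have h4 : G.dist p.penultimate x = 1 :=
          dist_eq_one_iff_adj.2 (Walk.adj_penultimate hnn)
        omega
      omega
    · simpa using Walk.adj_penultimate hnn
  have h1 : (level G r (i + 1)).card ≤ ∑ v ∈ level G r i, G.degree v := by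
    refine (Finset.card_le_card hsub).trans (Finset.card_biUnion_le.trans ?_)
    refine Finset.sum_le_sum fun v _ => ?_
    rw [G.card_neighborFinset_eq_degree]
  calc (level G r (i + 1)).card ^ 2 ≤ (∑ v ∈ level G r i, G.degree v) ^ 2 :=
        Nat.pow_le_pow_left h1 2
    _ ≤ (level G r i).card * ∑ v ∈ level G r i, G.degree v ^ 2 := sq_sum_le_card_mul_sum_sq
    _ ≤ (level G r i).card * ∑ v : V, G.degree v ^ 2 :=
        Nat.mul_le_mul_left _ (Finset.sum_le_sum_of_subset (Finset.subset_univ _))
    _ = _ := mul_comm _ _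

lemma level_pow_le (hG : G.Connected) (r : V) (i : ℕ) :
    (level G r i).card ^ (2 ^ i) * (∑ v : V, G.degree v ^ 2)
      ≤ (∑ v : V, G.degree v ^ 2) ^ (2 ^ i) := by
  set Q := ∑ v : V, G.degree v ^ 2 with hQ
  induction i with
  | zero =>
    have : (level G r 0) = {r} := by
      ext x
      simp only [level, mem_filter, mem_univ, true_and, mem_singleton]
      rw [hG.dist_eq_zero_iff]
      exact eq_comm
    rw [this]
    simp
  | succ i ih =>
    calc (level G r (i + 1)).card ^ (2 ^ (i + 1)) * Q
        = ((level G r (i + 1)).card ^ 2) ^ (2 ^ i) * Q := by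
          rw [← pow_mul, pow_succ 2 i, mul_comm (2 ^ i) 2]
      _ ≤ (Q * (level G r i).card) ^ (2 ^ i) * Q :=
          Nat.mul_le_mul_right _ (Nat.pow_le_pow_left (level_succ_sq_le G hG r i) _)
      _ = Q ^ (2 ^ i) * ((level G r i).card ^ (2 ^ i) * Q) := by rw [mul_pow]; ring
      _ ≤ Q ^ (2 ^ i) * Q ^ (2 ^ i) := Nat.mul_le_mul_left _ ih
      _ = Q ^ (2 ^ (i + 1)) := by rw [← pow_add, pow_succ 2 i, mul_two]

/-- A connected graph of bounded radius with many vertices has large sum of squared degrees. -/
lemma card_le_of_radius (hG : G.Connected) (r : V) (R A : ℕ) (hA : 1 ≤ A)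
    (hR : ∀ v, G.dist r v ≤ R)
    (hQ : ∑ v : V, G.degree v ^ 2 ≤ A * Fintype.card V) :
    Fintype.card V ≤ ((R + 1) * A) ^ (2 ^ R) := by
  set Q := ∑ v : V, G.degree v ^ 2 with hQdef
  set n := Fintype.card V with hn
  -- some level is large
  have hsum : n = ∑ i ∈ Finset.range (R + 1), (level G r i).card := by
    have := Finset.card_eq_sum_card_fiberwise (s := (univ : Finset V)) (t := Finset.range (R + 1))
      (f := fun v => G.dist r v) (by
        intro v _
        simp only [Finset.coe_range, Set.mem_Iio]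
        exact Nat.lt_succ_of_le (hR v))
    rw [Finset.card_univ] at this
    exact this
  obtain ⟨i, hi, hlarge⟩ : ∃ i ∈ Finset.range (R + 1), n ≤ (R + 1) * (level G r i).card := by
    by_contra hcon
    push Not at hcon
    have h1 : ∑ i ∈ Finset.range (R + 1), (R + 1) * (level G r i).card
        < ∑ i ∈ Finset.range (R + 1), n :=
      Finset.sum_lt_sum_of_nonempty ⟨0, by simp⟩ hcon
    rw [← Finset.mul_sum, ← hsum, Finset.sum_const, Finset.card_range, smul_eq_mul] at h1
    exact lt_irrefl _ h1
  rcases Nat.eq_zero_or_pos Q with hQ0 | hQpos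
  · -- no edges: a single vertex
    have hdeg : ∀ v, G.degree v = 0 := by
      intro v
      have := (Finset.sum_eq_zero_iff.1 hQ0) v (mem_univ _)
      exact pow_eq_zero_iff (by norm_num) |>.1 this
    have hcard : n ≤ 1 := by
      rw [hn, Fintype.card_le_one_iff]
      intro a b
      by_contra hab
      obtain ⟨p⟩ := hG.preconnected a b
      cases p with
      | nil => exact hab rfl
      | cons h q =>
        have := (G.degree_pos_iff_exists_adj a).2 ⟨_, h⟩
        rw [hdeg a] at this
        exact lt_irrefl _ this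
    refine hcard.trans (Nat.one_le_pow _ _ ?_)
    positivity
  · have hiR : i ≤ R := by
      rw [Finset.mem_range] at hi; omega
    obtain ⟨q, hq⟩ : ∃ q, 2 ^ i = q + 1 := ⟨2 ^ i - 1, by
      have : 1 ≤ 2 ^ i := Nat.one_le_two_pow
      omega⟩
    have h1 := level_pow_le G hG r i
    rw [← hQdef, hq] at h1
    have h2 : n ^ (q + 1) * Q ≤ (R + 1) ^ (q + 1) * Q ^ (q + 1) := by
      calc n ^ (q + 1) * Q ≤ ((R + 1) * (level G r i).card) ^ (q + 1) * Q :=
            Nat.mul_le_mul_right _ (Nat.pow_le_pow_left hlarge _)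
        _ = (R + 1) ^ (q + 1) * ((level G r i).card ^ (q + 1) * Q) := by rw [mul_pow]; ring
        _ ≤ _ := Nat.mul_le_mul_left _ h1
    have h3 : n ^ (q + 1) ≤ (R + 1) ^ (q + 1) * Q ^ q := by
      refine Nat.le_of_mul_le_mul_right (c := Q) ?_ hQpos
      calc n ^ (q + 1) * Q ≤ _ := h2
        _ = (R + 1) ^ (q + 1) * Q ^ q * Q := by ring
    have h4 : n ^ q * n ≤ n ^ q * ((R + 1) ^ (q + 1) * A ^ q) := by
      calc n ^ q * n = n ^ (q + 1) := (pow_succ n q).symm
        _ ≤ (R + 1) ^ (q + 1) * Q ^ q := h3
        _ ≤ (R + 1) ^ (q + 1) * (A * n) ^ q :=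
            Nat.mul_le_mul_left _ (Nat.pow_le_pow_left hQ _)
        _ = n ^ q * ((R + 1) ^ (q + 1) * A ^ q) := by rw [mul_pow]; ring
    have hnpos : 0 < n := by
      rw [hn]
      exact Fintype.card_pos_iff.2 hG.nonempty
    have h5 : n ≤ (R + 1) ^ (q + 1) * A ^ q :=
      Nat.le_of_mul_le_mul_left h4 (pow_pos hnpos q)
    calc n ≤ (R + 1) ^ (q + 1) * A ^ q := h5
      _ ≤ (R + 1) ^ (q + 1) * A ^ (q + 1) :=
          Nat.mul_le_mul_left _ (Nat.pow_le_pow_right hA (Nat.le_succ q))
      _ = ((R + 1) * A) ^ (2 ^ i) := by rw [hq, mul_pow]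
      _ ≤ ((R + 1) * A) ^ (2 ^ R) := by
          refine Nat.pow_le_pow_right ?_ (Nat.pow_le_pow_right (by norm_num) hiR)
          exact Nat.mul_pos (Nat.succ_pos R) hA

end Levels

end Pool.Agent.J4H95.TS
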