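import Pool.Agent.J4H95.TS.Stars

/-!
# Few paths force many stars, quantitatively

Helper file for `MP_b90d6a_co`.
-/

namespace Pool.Agent.J4H95.TS

open SimpleGraph Finset

section Main

variable {V : Type*} [Fintype V] [DecidableEq V] (G : SimpleGraph V) [DecidableRel G.Adj]

/-- The constant turning degree powers into star counts. -/
def c2 (e : ℕ) : ℕ := (2 * (e + 4)) ^ (e + 3) * ((e + 3).factorial)

/-- The constant of the counting lemma. -/
def c1 (e : ℕ) : ℕ := (e + 4) ^ (e + 1)

/-- The constant in front of the number of vertices. -/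
def cB (e K : ℕ) : ℕ := c1 e * (2 * c2 e + (2 * K ^ (e + 2)) ^ (e + 3))

lemma moment_le (hG : G.IsTree) {e : ℕ} (c : Fin (e + 4)) :
    ∑ v : V, G.degree v ^ (e + 3) ≤
      c2 e * ((e + 4) * (starSets G c).card + Fintype.card V) := by
  calc ∑ v : V, G.degree v ^ (e + 3)
      ≤ ∑ v : V, c2 e * ((G.degree v).choose (e + 3) + 1) :=
        Finset.sum_le_sum fun v _ => pow_le_choose_bound e (G.degree v)
    _ = c2 e * (∑ v : V, (G.degree v).choose (e + 3) + Fintype.card V) := by
        rw [← Finset.mul_sum, Finset.sum_add_distrib, Finset.sum_const, Finset.card_univ,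
          smul_eq_mul, mul_one]
    _ ≤ _ := Nat.mul_le_mul_left _ (Nat.add_le_add_right (star_lower G hG c) _)

lemma nonStar_le (hG : G.IsTree) {e : ℕ} (c : Fin (e + 4)) (K : ℕ) (hK : 1 ≤ K) :
    K * (nonStar G c).card ≤
      2 * c1 e * c2 e * (e + 4) * (starSets G c).card + cB e K * Fintype.card V := by
  have h1 := card_nonStar_le G hG c
  have h2 := edgeSum_le G hG K e hK
  have h3 := power_trade G (2 * K ^ (e + 2)) e
  have h4 := moment_le G hG c
  set M := ∑ v : V, G.degree v ^ (e + 3) with hM
  set n := Fintype.card V with hn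
  set S := (starSets G c).card with hS
  calc K * (nonStar G c).card ≤ K * (c1 e * edgeSum G (e + 1)) := Nat.mul_le_mul_left _ h1
    _ = c1 e * (K * edgeSum G (e + 1)) := by ring
    _ ≤ c1 e * (M + 2 * K ^ (e + 2) * ∑ v : V, G.degree v ^ (e + 2)) := Nat.mul_le_mul_left _ h2
    _ ≤ c1 e * (M + (M + (2 * K ^ (e + 2)) ^ (e + 3) * n)) :=
        Nat.mul_le_mul_left _ (Nat.add_le_add_left h3 _)
    _ = c1 e * (2 * M + (2 * K ^ (e + 2)) ^ (e + 3) * n) := by ring
    _ ≤ c1 e * (2 * (c2 e * ((e + 4) * S + n)) + (2 * K ^ (e + 2)) ^ (e + 3) * n) :=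
        Nat.mul_le_mul_left _ (Nat.add_le_add_right (Nat.mul_le_mul_left _ h4) _)
    _ = _ := by rw [cB]; ring

lemma c2_pos (e : ℕ) : 0 < c2 e := by
  unfold c2
  have := Nat.factorial_pos (e + 3)
  positivity

lemma c1_pos (e : ℕ) : 0 < c1 e := by
  unfold c1
  positivity

lemma cB_pos (e K : ℕ) : 0 < cB e K := by
  unfold cB
  have h1 := c1_pos e
  have h2 := c2_pos e
  positivity

/-- In a large tree the number of vertices is controlled by paths, or negligible against stars. -/
lemma card_control (hG : G.IsTree) {e : ℕ} (c : Fin (e + 4)) (B : ℕ)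
    (hn : ((e + 3) * (c2 e + B)) ^ (2 ^ (e + 2)) < Fintype.card V) :
    Fintype.card V ≤ (e + 4) * (pathSets G (e + 4)).card ∨
      B * Fintype.card V ≤ c2 e * (e + 4) * (starSets G c).card := by
  by_cases hecc : ∀ v, ∃ w, (e + 3) + 1 ≤ G.dist v w + 1 ∧ (e + 3) ≤ G.dist v w
  · left
    exact path_lower G hG hecc
  · right
    push Not at hecc
    obtain ⟨r, hr⟩ := hecc
    have hR : ∀ v, G.dist r v ≤ e + 2 := by
      intro v
      by_contra hcon
      have := hr v (by omega)
      omega
    have hpos : 1 ≤ c2 e + B := by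
      have := c2_pos e
      omega
    have hQ : (c2 e + B) * Fintype.card V < ∑ v : V, G.degree v ^ 2 := by
      by_contra hcon
      push Not at hcon
      have := card_le_of_radius G hG.connected r (e + 2) (c2 e + B) hpos hR hcon
      have h3 : e + 2 + 1 = e + 3 := rfl
      rw [h3] at this
      omega
    have hQM : ∑ v : V, G.degree v ^ 2 ≤ ∑ v : V, G.degree v ^ (e + 3) := by
      refine Finset.sum_le_sum fun v _ => ?_
      rcases Nat.eq_zero_or_pos (G.degree v) with h | h
      · rw [h]; simp
      · exact Nat.pow_le_pow_right h (by omega)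
    have hM := moment_le G hG c
    have h5 : (c2 e + B) * Fintype.card V ≤
        c2 e * ((e + 4) * (starSets G c).card + Fintype.card V) := by
      exact (hQ.le.trans hQM).trans hM
    have h6 : c2 e * Fintype.card V + B * Fintype.card V ≤
        c2 e * Fintype.card V + c2 e * (e + 4) * (starSets G c).card := by
      calc c2 e * Fintype.card V + B * Fintype.card V = (c2 e + B) * Fintype.card V := by ring
        _ ≤ _ := h5
        _ = _ := by ring
    omega

/-- The constant in front of the number of stars; it does not depend on `K`. -/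
def cA (e : ℕ) : ℕ := 2 * c1 e * c2 e * (e + 4) + c2 e * (e + 4)

/-- **Main inequality.**  In all sufficiently large trees,
`K * #(non-star subtrees) ≤ A * #stars + C * #paths`, with `A` independent of `K`. -/
theorem main_ineq (hG : G.IsTree) {e : ℕ} (c : Fin (e + 4)) (K : ℕ) (hK : 1 ≤ K)
    (hn : ((e + 3) * (c2 e + cB e K)) ^ (2 ^ (e + 2)) < Fintype.card V) :
    K * (nonStar G c).card ≤ cA e * (starSets G c).card
      + cB e K * (e + 4) * (pathSets G (e + 4)).card := by
  have h1 := nonStar_le G hG c K hK
  rcases card_control G hG c (cB e K) hn with h | h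
  · calc K * (nonStar G c).card ≤ _ := h1
      _ ≤ 2 * c1 e * c2 e * (e + 4) * (starSets G c).card
          + cB e K * ((e + 4) * (pathSets G (e + 4)).card) :=
          Nat.add_le_add_left (Nat.mul_le_mul_left _ h) _
      _ ≤ _ := by
          refine Nat.add_le_add (Nat.mul_le_mul_right _ ?_) (mul_assoc _ _ _).ge
          rw [cA]
          exact Nat.le_add_right _ _
  · calc K * (nonStar G c).card ≤ _ := h1
      _ ≤ 2 * c1 e * c2 e * (e + 4) * (starSets G c).card
          + c2 e * (e + 4) * (starSets G c).card := Nat.add_le_add_left h _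
      _ = cA e * (starSets G c).card := by rw [cA, add_mul]
      _ ≤ _ := Nat.le_add_right _ _

/-- In all sufficiently large trees there is a `k`-star or a `k`-path. -/
theorem star_or_path (hG : G.IsTree) {e : ℕ} (c : Fin (e + 4))
    (hn : ((e + 3) * (c2 e + 1)) ^ (2 ^ (e + 2)) < Fintype.card V) :
    0 < (starSets G c).card ∨ 0 < (pathSets G (e + 4)).card := by
  have hpos : 0 < Fintype.card V := by omega
  rcases card_control G hG c 1 hn with h | h
  · right
    rcases Nat.eq_zero_or_pos (pathSets G (e + 4)).card with h0 | h0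
    · rw [h0, mul_zero] at h; omega
    · exact h0
  · left
    rcases Nat.eq_zero_or_pos (starSets G c).card with h0 | h0
    · rw [h0, mul_zero] at h; omega
    · exact h0

end Main

section PathTree

/-- The path graph is a tree. -/
theorem isTree_pathGraph (m : ℕ) : (pathGraph (m + 1)).IsTree := by
  rw [isTree_iff_connected_and_card]
  refine ⟨pathGraph_connected m, ?_⟩
  have h1 := (pathGraph_connected m).card_vert_le_card_edgeSet_add_one
  have h2 : Nat.card (pathGraph (m + 1)).edgeSet ≤ m := by
    have hsurj : (pathGraph (m + 1)).edgeSet ⊆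
        Set.range (fun i : Fin m => s(i.castSucc, i.succ)) := by
      intro x hx
      induction x using Sym2.ind with
      | _ a b =>
        rw [mem_edgeSet, pathGraph_adj] at hx
        rcases hx with h | h
        · refine ⟨⟨a, by have := b.2; omega⟩, ?_⟩
          have h1 : (⟨a, by have := b.2; omega⟩ : Fin m).castSucc = a := Fin.ext rfl
          have h2 : (⟨a, by have := b.2; omega⟩ : Fin m).succ = b := Fin.ext (by simpa using h)
          simp only [h1, h2]
        · refine ⟨⟨b, by have := a.2; omega⟩, ?_⟩
          have h1 : (⟨b, by have := a.2; omega⟩ : Fin m).castSucc = b := Fin.ext rfl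
          have h2 : (⟨b, by have := a.2; omega⟩ : Fin m).succ = a := Fin.ext (by simpa using h)
          simp only [h1, h2]
          exact Sym2.eq_swap
    have h3 := Set.ncard_le_ncard hsurj (Set.toFinite _)
    have h4 : (Set.range (fun i : Fin m => s(i.castSucc, i.succ))).ncard ≤ m := by
      rw [← Set.image_univ]
      refine (Set.ncard_image_le (Set.toFinite _)).trans ?_
      rw [Set.ncard_univ, Nat.card_eq_fintype_card, Fintype.card_fin]
    rw [Nat.card_coe_set_eq]
    exact h3.trans h4
  rw [Nat.card_eq_fintype_card (α := Fin (m + 1)), Fintype.card_fin] at *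
  omega

end PathTree

end Pool.Agent.J4H95.TS
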