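import Pool.Agent.J4H95.TS.Count
import Pool.Agent.J4H95.TS.Deg

/-!
# Stars, paths and other subtrees of a tree

Helper file for `MP_b90d6a_co`.
-/

namespace Pool.Agent.J4H95.TS

open SimpleGraph Finset

section Iso

variable {V : Type*} [DecidableEq V] {G : SimpleGraph V}

/-- A set in which exactly the pairs containing `v` are adjacent induces a star. -/
lemma star_iso {k : ℕ} (c : Fin k) {U : Finset V} (hU : U.card = k) {v : V} (hv : v ∈ U)
    (h : ∀ x ∈ U, ∀ y ∈ U, G.Adj x y ↔ (x ≠ y ∧ (x = v ∨ y = v))) :
    Nonempty (starGraph c ≃g G.induce (U : Set V)) := by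
  have hcard : Fintype.card (Fin k) = Fintype.card (U : Set V) := by
    rw [Fintype.card_fin, ← hU]
    simp
  let e0 : Fin k ≃ (U : Set V) := Fintype.equivOfCardEq hcard
  let e : Fin k ≃ (U : Set V) := e0.trans (Equiv.swap (e0 c) ⟨v, hv⟩)
  have hec : e c = ⟨v, hv⟩ := by simp [e]
  have hiff : ∀ a, (e a : V) = v ↔ a = c := by
    intro a
    constructor
    · intro ha
      apply e.injective
      rw [hec]
      exact Subtype.ext ha
    · rintro rfl
      rw [hec]
  refine ⟨⟨e, ?_⟩⟩
  intro a b
  rw [comap_adj, starGraph_adj]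
  change G.Adj (e a : V) (e b : V) ↔ _
  rw [h _ (e a).2 _ (e b).2, hiff, hiff]
  have : (e a : V) ≠ (e b : V) ↔ a ≠ b := by
    rw [Ne, Ne, not_iff_not]
    constructor
    · intro hab; exact e.injective (Subtype.ext hab)
    · rintro rfl; rfl
  rw [this]

/-- A connected set that is not a star contains, from each of its vertices, a path of length 2. -/
lemma exists_two_step (hG : G.IsTree) {k : ℕ} (c : Fin k) {U : Finset V} (hU : U.card = k)
    (hconn : (G.induce (U : Set V)).Connected)
    (hns : ¬ Nonempty (starGraph c ≃g G.induce (U : Set V))) {v : V} (hv : v ∈ U) :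
    ∃ u ∈ U, G.Adj v u ∧ ∃ w ∈ U, G.Adj u w ∧ w ≠ v := by
  classical
  by_contra hcon
  push Not at hcon
  apply hns
  have hall : ∀ x ∈ U, x = v ∨ G.Adj v x := by
    by_contra hne
    push Not at hne
    obtain ⟨x0, hx0, hx0v, hx0n⟩ := hne
    obtain ⟨a, ha, x, hx, hxA, hadj⟩ := exists_crossing G (A := U.filter (fun x => x = v ∨ G.Adj v x))
      hconn (Finset.filter_subset _ _) ⟨v, by simp [hv]⟩ (by
        intro h
        have : x0 ∈ U.filter (fun x => x = v ∨ G.Adj v x) := by rw [h]; exact hx0
        simp only [mem_filter] at this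
        rcases this.2 with h1 | h1
        · exact hx0v h1
        · exact hx0n h1)
    simp only [mem_filter, not_and, not_or] at ha hxA
    have hxA' := hxA hx
    rcases ha.2 with rfl | hva
    · exact hxA'.2 hadj
    · exact hxA'.1 (hcon a ha.1 hva x hx hadj)
  refine star_iso c hU hv ?_
  intro x hx y hy
  constructor
  · intro hadj
    refine ⟨hadj.ne, ?_⟩
    by_cases hxv : x = v
    · exact Or.inl hxv
    · right
      have hvx : G.Adj v x := (hall x hx).resolve_left hxv
      exact hcon x hx hvx y hy hadj
  · rintro ⟨hne, h | h⟩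
    · subst h
      exact (hall y hy).resolve_left (Ne.symm hne)
    · subst h
      exact ((hall x hx).resolve_left hne).symm

end Iso

section NonStar

variable {V : Type*} [Fintype V] [DecidableEq V] (G : SimpleGraph V) [DecidableRel G.Adj]

open Classical in
/-- The connected `k`-sets that do not induce a star. -/
noncomputable def nonStar {k : ℕ} (c : Fin k) : Finset (Finset V) :=
  univ.filter (fun U : Finset V => U.card = k ∧ (G.induce (U : Set V)).Connected ∧
    ¬ Nonempty (starGraph c ≃g G.induce (U : Set V)))

open Classical in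
/-- The `k`-sets inducing a star. -/
noncomputable def starSets {k : ℕ} (c : Fin k) : Finset (Finset V) :=
  univ.filter (fun U : Finset V => Nonempty (starGraph c ≃g G.induce (U : Set V)))

open Classical in
/-- The `k`-sets inducing a path. -/
noncomputable def pathSets (k : ℕ) : Finset (Finset V) :=
  univ.filter (fun U : Finset V => Nonempty (pathGraph k ≃g G.induce (U : Set V)))

lemma card_of_iso {k : ℕ} {H : SimpleGraph (Fin k)} {U : Finset V}
    (h : Nonempty (H ≃g G.induce (U : Set V))) : U.card = k := by
  obtain ⟨e⟩ := h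
  have := Fintype.card_congr e.toEquiv
  rw [Fintype.card_fin] at this
  rw [this]
  simp

lemma card_nonStar_le (hG : G.IsTree) {e : ℕ} (c : Fin (e + 4)) :
    (nonStar G c).card ≤ (e + 4) ^ (e + 1) * edgeSum G (e + 1) := by
  have hsub : nonStar G c ⊆ (univ : Finset V).biUnion (fun v =>
      ((G.neighborFinset v).filter (fun u => G.degree u ≤ G.degree v)).biUnion (fun u =>
        ((G.neighborFinset u).erase v).biUnion (fun w =>
          ext G (e + 4) (G.degree v) {v, u, w}))) := by
    intro U hU
    simp only [nonStar, mem_filter, mem_univ, true_and] at hU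
    obtain ⟨hcard, hconn, hns⟩ := hU
    have hUne : U.Nonempty := by
      rw [← Finset.card_pos, hcard]; omega
    obtain ⟨v, hv, hmax⟩ := Finset.exists_max_image U (fun x => G.degree x) hUne
    obtain ⟨u, hu, hvu, w, hw, huw, hwv⟩ := exists_two_step hG c hcard hconn hns hv
    rw [mem_biUnion]
    refine ⟨v, mem_univ _, ?_⟩
    rw [mem_biUnion]
    refine ⟨u, ?_, ?_⟩
    · rw [mem_filter, mem_neighborFinset]
      exact ⟨hvu, hmax u hu⟩
    rw [mem_biUnion]
    refine ⟨w, ?_, ?_⟩
    · rw [mem_erase, mem_neighborFinset]
      exact ⟨hwv, huw⟩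
    · simp only [ext, mem_filter, mem_univ, true_and]
      refine ⟨?_, hcard, hconn, hmax⟩
      intro x hx
      simp only [mem_insert, mem_singleton] at hx
      rcases hx with rfl | rfl | rfl
      · exact hv
      · exact hu
      · exact hw
  refine (Finset.card_le_card hsub).trans (Finset.card_biUnion_le.trans ?_)
  rw [edgeSum, Finset.mul_sum]
  refine Finset.sum_le_sum fun v _ => ?_
  refine Finset.card_biUnion_le.trans ?_
  rw [Finset.mul_sum]
  refine Finset.sum_le_sum fun u hu => ?_
  rw [mem_filter, mem_neighborFinset] at hu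
  have h1 : (((G.neighborFinset u).erase v).biUnion (fun w =>
          ext G (e + 4) (G.degree v) {v, u, w})).card
      ≤ ((G.neighborFinset u).erase v).card * ((e + 4) * G.degree v) ^ (e + 1) := by
    refine Finset.card_biUnion_le_card_mul _ _ _ ?_
    intro w hw
    rw [mem_erase, mem_neighborFinset] at hw
    refine card_ext_le G (e + 4) (G.degree v) (e + 1) {v, u, w} (by simp) ?_
    have h3 : ({v, u, w} : Finset V).card = 3 := by
      rw [Finset.card_eq_three]
      exact ⟨v, u, w, hu.1.ne, hw.1.symm, hw.2.ne, rfl⟩
    omega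
  refine h1.trans ?_
  have h2 : ((G.neighborFinset u).erase v).card ≤ G.degree u := by
    refine (Finset.card_le_card (Finset.erase_subset _ _)).trans ?_
    rw [G.card_neighborFinset_eq_degree]
  calc ((G.neighborFinset u).erase v).card * ((e + 4) * G.degree v) ^ (e + 1)
      ≤ G.degree u * ((e + 4) * G.degree v) ^ (e + 1) := Nat.mul_le_mul_right _ h2
    _ = (e + 4) ^ (e + 1) * (G.degree u * G.degree v ^ (e + 1)) := by rw [mul_pow]; ring

/-- Double counting of pairs (set, element). -/
lemma double_count (F : Finset (Finset V)) (k : ℕ) (hF : ∀ U ∈ F, U.card = k) :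
    ∑ v : V, (F.filter (fun U => v ∈ U)).card = k * F.card := by
  have h : ∑ v : V, (F.filter (fun U => v ∈ U)).card = ∑ U ∈ F, U.card := by
    simp_rw [Finset.card_eq_sum_ones, Finset.sum_filter]
    rw [Finset.sum_comm]
    refine Finset.sum_congr rfl fun U _ => ?_
    simp
  rw [h, Finset.sum_congr rfl hF, Finset.sum_const, smul_eq_mul, mul_comm]

lemma star_lower (hG : G.IsTree) {e : ℕ} (c : Fin (e + 4)) :
    ∑ v : V, (G.degree v).choose (e + 3) ≤ (e + 4) * (starSets G c).card := by
  rw [← double_count (starSets G c) (e + 4) (by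
    intro U hU
    simp only [starSets, mem_filter, mem_univ, true_and] at hU
    exact card_of_iso G hU)]
  refine Finset.sum_le_sum fun v _ => ?_
  rw [← G.card_neighborFinset_eq_degree, ← Finset.card_powersetCard]
  refine Finset.card_le_card_of_injOn (fun W => insert v W) ?_ ?_
  · intro W hW
    obtain ⟨hsub, hcard⟩ := Finset.mem_powersetCard.1 (Finset.mem_coe.1 hW)
    have hvW : v ∉ W := fun h => by
      have := hsub h
      simp at this
    rw [Finset.mem_coe, mem_filter]
    refine ⟨?_, mem_insert_self v W⟩
    simp only [starSets, mem_filter, mem_univ, true_and]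
    refine star_iso c ?_ (mem_insert_self v W) ?_
    · rw [Finset.card_insert_of_notMem hvW, hcard]
    · intro x hx y hy
      rw [mem_insert] at hx hy
      constructor
      · intro hadj
        refine ⟨hadj.ne, ?_⟩
        rcases hx with hx | hx
        · exact Or.inl hx
        rcases hy with hy | hy
        · exact Or.inr hy
        exfalso
        have hvx : G.Adj v x := by simpa using hsub hx
        have hvy : G.Adj v y := by simpa using hsub hy
        have hcf := hG.isAcyclic.cliqueFree (n := 3) le_rfl
        refine hcf {v, x, y} ?_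
        rw [is3Clique_triple_iff]
        exact ⟨hvx, hvy, hadj⟩
      · rintro ⟨hne, h | h⟩
        · subst h
          rcases hy with hy | hy
          · exact absurd hy.symm hne
          · simpa using hsub hy
        · subst h
          rcases hx with hx | hx
          · exact absurd hx hne
          · have : G.Adj y x := by simpa using hsub hx
            exact this.symm
  · intro W hW W' hW' h
    replace hW := Finset.mem_powersetCard.1 (Finset.mem_coe.1 hW)
    replace hW' := Finset.mem_powersetCard.1 (Finset.mem_coe.1 hW')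
    have hvW : v ∉ W := fun h => by
      have := hW.1 h
      simp at this
    have hvW' : v ∉ W' := fun h => by
      have := hW'.1 h
      simp at this
    have := congrArg (fun S => S.erase v) h
    simpa [Finset.erase_insert hvW, Finset.erase_insert hvW'] using this

lemma pow_le_choose_bound (e d : ℕ) :
    d ^ (e + 3) ≤ (2 * (e + 4)) ^ (e + 3) * ((e + 3).factorial) * (d.choose (e + 3) + 1) := by
  rcases le_total d (2 * (e + 4)) with h | h
  · calc d ^ (e + 3) ≤ (2 * (e + 4)) ^ (e + 3) := Nat.pow_le_pow_left h _
      _ = (2 * (e + 4)) ^ (e + 3) * 1 * 1 := by ring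
      _ ≤ _ := by
        refine Nat.mul_le_mul (Nat.mul_le_mul_left _ ?_) (by omega)
        exact Nat.factorial_pos _
  · have h1 : (d + 1 - (e + 3)) ^ (e + 3) ≤ (e + 3).factorial * d.choose (e + 3) := by
      have h2 := Nat.pow_le_choose (α := ℚ) (e + 3) d
      rw [div_le_iff₀ (by positivity)] at h2
      have h3 : (((d + 1 - (e + 3)) ^ (e + 3) : ℕ) : ℚ) ≤
          (((e + 3).factorial * d.choose (e + 3) : ℕ) : ℚ) := by
        push_cast at h2 ⊢
        rw [mul_comm ((e + 3).factorial : ℚ)]
        exact h2
      exact_mod_cast h3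
    calc d ^ (e + 3) ≤ (2 * (d + 1 - (e + 3))) ^ (e + 3) := Nat.pow_le_pow_left (by omega) _
      _ = 2 ^ (e + 3) * (d + 1 - (e + 3)) ^ (e + 3) := by rw [mul_pow]
      _ ≤ 2 ^ (e + 3) * ((e + 3).factorial * d.choose (e + 3)) := Nat.mul_le_mul_left _ h1
      _ ≤ (2 * (e + 4)) ^ (e + 3) * ((e + 3).factorial * (d.choose (e + 3) + 1)) := by
        refine Nat.mul_le_mul ?_ (Nat.mul_le_mul_left _ (Nat.le_succ _))
        exact Nat.pow_le_pow_left (by omega) _
      _ = _ := by ring

end NonStar

section Paths

variable {V : Type*} [Fintype V] [DecidableEq V] (G : SimpleGraph V) [DecidableRel G.Adj]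

lemma dist_getVert_geodesic (hG : G.Connected) {v w : V} (p : G.Walk v w)
    (hp : p.length = G.dist v w) {i : ℕ} (hi : i ≤ p.length) : G.dist v (p.getVert i) = i := by
  have h1 : G.dist v (p.getVert i) ≤ i := by
    have := dist_le (p.take i)
    rw [Walk.take_length] at this
    omega
  have h2 : G.dist (p.getVert i) w ≤ p.length - i := by
    have := dist_le (p.drop i)
    rw [Walk.drop_length] at this
    exact this
  have h3 := hG.dist_triangle (u := v) (v := p.getVert i) (w := w)
  omega

/-- If every vertex has eccentricity at least `k - 1`, there are many induced `k`-paths. -/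
lemma path_lower (hG : G.IsTree) {m : ℕ}
    (hecc : ∀ v, ∃ w, m + 1 ≤ G.dist v w + 1 ∧ m ≤ G.dist v w) :
    Fintype.card V ≤ (m + 1) * (pathSets G (m + 1)).card := by
  rw [← double_count (pathSets G (m + 1)) (m + 1) (by
    intro U hU
    simp only [pathSets, mem_filter, mem_univ, true_and] at hU
    exact card_of_iso G hU), ← Finset.card_univ, Finset.card_eq_sum_ones]
  refine Finset.sum_le_sum fun v _ => ?_
  rw [Nat.one_le_iff_ne_zero, ← Nat.pos_iff_ne_zero, Finset.card_pos]
  obtain ⟨w, -, hw⟩ := hecc v
  obtain ⟨p, hp⟩ := hG.connected.exists_walk_length_eq_dist v w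
  let f : Fin (m + 1) → V := fun i => p.getVert i
  have hdist : ∀ i : Fin (m + 1), G.dist v (f i) = i := by
    intro i
    refine dist_getVert_geodesic G hG.connected p hp ?_
    have := i.2
    omega
  have hinj : Function.Injective f := by
    intro i j hij
    apply Fin.ext
    rw [← hdist i, ← hdist j, hij]
  have hadj : ∀ i j : Fin (m + 1), G.Adj (f i) (f j) ↔ (pathGraph (m + 1)).Adj i j := by
    intro i j
    rw [pathGraph_adj]
    constructor
    · intro h
      have h1 := hG.dist_eq_dist_add_one_of_adj v h
      rw [hdist, hdist] at h1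
      omega
    · rintro (h | h)
      · have h2 : f j = p.getVert (i + 1) := by simp only [f]; rw [h]
        rw [h2]
        exact p.adj_getVert_succ (by have := j.2; omega)
      · have h2 : f i = p.getVert (j + 1) := by simp only [f]; rw [h]
        rw [h2]
        exact (p.adj_getVert_succ (by have := i.2; omega)).symm
  refine ⟨univ.image f, ?_⟩
  rw [mem_filter]
  refine ⟨?_, ?_⟩
  · simp only [pathSets, mem_filter, mem_univ, true_and]
    have hmem : ∀ i, f i ∈ ((univ.image f : Finset V) : Set V) := by
      intro i; simp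
    let g : Fin (m + 1) → ((univ.image f : Finset V) : Set V) := fun i => ⟨f i, hmem i⟩
    have hg : Function.Bijective g := by
      constructor
      · intro i j h
        exact hinj (congrArg Subtype.val h)
      · rintro ⟨x, hx⟩
        simp only [coe_image, coe_univ, Set.image_univ, Set.mem_range] at hx
        obtain ⟨i, hi⟩ := hx
        exact ⟨i, Subtype.ext hi⟩
    refine ⟨⟨Equiv.ofBijective g hg, ?_⟩⟩
    intro a b
    exact hadj a b
  · rw [mem_image]
    exact ⟨0, mem_univ _, by simp [f]⟩

end Paths

end Pool.Agent.J4H95.TS
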